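import Pool.Agent.Helper15_SIQ.Stmts

/-!
# GAU: integrals over the chart as Gaussian integrals
-/

set_option autoImplicit false

open MeasureTheory Filter Topology
open scoped ENNReal

namespace Pool.Agent.SIQ.H21

open Pool.Agent.SIU

/-! ### splitting of the coordinates -/

/-- splitting of the coordinates -/
def eq6 : Fin 3 ⊕ Fin 3 ≃ Fin 6 where
  toFun := Sum.elim ![1, 3, 5] ![0, 2, 4]
  invFun := ![Sum.inr 0, Sum.inl 0, Sum.inr 1, Sum.inl 1, Sum.inr 2, Sum.inl 2]
  left_inv := by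
    rintro (i | i) <;> fin_cases i <;> rfl
  right_inv := by
    intro i
    fin_cases i <;> rfl

/-- the splitting as a measurable equivalence -/
noncomputable def spl : (C3 × C3) ≃ᵐ E6 :=
  (MeasurableEquiv.sumPiEquivProdPi (fun _ : Fin 3 ⊕ Fin 3 => ℂ)).symm.trans
    (MeasurableEquiv.piCongrLeft (fun _ : Fin 6 => ℂ) eq6)

theorem spl_apply (c w : C3) :
    spl (c, w) = ![w 0, c 0, w 1, c 1, w 2, c 2] := by
  have h : ∀ a : Fin 3 ⊕ Fin 3, spl (c, w) (eq6 a) = Sum.elim c w a := by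
    intro a
    have h1 := Equiv.piCongrLeft_apply_apply (P := fun _ : Fin 6 => ℂ) (e := eq6)
      ((MeasurableEquiv.sumPiEquivProdPi (fun _ : Fin 3 ⊕ Fin 3 => ℂ)).symm (c, w)) a
    refine h1.trans ?_
    cases a <;> rfl
  funext k
  fin_cases k
  · exact h (Sum.inr 0)
  · exact h (Sum.inl 0)
  · exact h (Sum.inr 1)
  · exact h (Sum.inl 1)
  · exact h (Sum.inr 2)
  · exact h (Sum.inl 2)

theorem spl_mp : MeasurePreserving spl volume volume :=
  (volume_measurePreserving_sumPiEquivProdPi_symm (fun _ : Fin 3 ⊕ Fin 3 => ℂ)).trans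
    (volume_measurePreserving_piCongrLeft (fun _ : Fin 6 => ℂ) eq6)

/-- multiplication of the coordinates -/
noncomputable def dg (u : C3) : C3 →ₗ[ℂ] C3 :=
  Matrix.toLin' (Matrix.diagonal u)

theorem dg_apply (u x : C3) (i : Fin 3) : dg u x i = u i * x i := by
  unfold dg
  rw [Matrix.toLin'_apply, Matrix.mulVec_diagonal]

theorem det_dg (u : C3) :
    LinearMap.det ((dg u).restrictScalars ℝ) = ∏ i, ‖u i‖ ^ 2 := by
  rw [LinearMap.det_restrictScalars, Algebra.norm_complex_apply]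
  unfold dg
  rw [LinearMap.det_toLin', Matrix.det_diagonal, Complex.normSq_eq_norm_sq, norm_prod,
    Finset.prod_pow]

theorem scale (u : C3) (hu : ∀ i, u i ≠ 0) (h : C3 → ℝ≥0∞) (hh : Measurable h) :
    ∫⁻ x : C3, h x = ∫⁻ x : C3, h (fun i => u i * x i) * ENNReal.ofReal (∏ i, ‖u i‖ ^ 2) := by
  have hpos : 0 < ∏ i, ‖u i‖ ^ 2 :=
    Finset.prod_pos fun i _ => by
      have := norm_pos_iff.2 (hu i)
      positivity
  have hdet : LinearMap.det ((dg u).restrictScalars ℝ) ≠ 0 := by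
    rw [det_dg]
    exact hpos.ne'
  have hmap := Measure.map_linearMap_addHaar_eq_smul_addHaar
    (volume : Measure C3) hdet
  have hmeas : Measurable ((dg u).restrictScalars ℝ) :=
    (LinearMap.continuous_of_finiteDimensional _).measurable
  have hl : ∫⁻ x : C3, h (fun i => u i * x i) =
      ENNReal.ofReal |(∏ i, ‖u i‖ ^ 2)⁻¹| * ∫⁻ x, h x := by
    have e1 : (fun x : C3 => h (fun i => u i * x i))
        = fun x => h (((dg u).restrictScalars ℝ) x) := by
      funext x
      congr 1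
      funext i
      exact (dg_apply u x i).symm
    rw [e1, ← lintegral_map hh hmeas, hmap, lintegral_smul_measure, det_dg]
    rfl
  have hm2 : Measurable fun x : C3 => h (fun i => u i * x i) := hh.comp (by fun_prop)
  rw [lintegral_mul_const _ hm2, hl, mul_assoc, mul_comm (∫⁻ x, h x),
    ← mul_assoc, ← ENNReal.ofReal_mul (abs_nonneg _), abs_of_pos (inv_pos.2 hpos),
    inv_mul_cancel₀ hpos.ne', ENNReal.ofReal_one, one_mul]

theorem ae_ne : ∀ᵐ c : C3, ∀ j, c j ≠ 0 := by
  rw [ae_all_iff]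
  intro j
  have h : (volume : Measure C3) {c | c j = 0} = 0 :=
    Measure.pi_hyperplane (fun _ : Fin 3 => (volume : Measure ℂ)) j 0
  exact measure_eq_zero_iff_ae_notMem.1 h

theorem ae_ne6 : ∀ᵐ z : E6, ∀ j, z j ≠ 0 := by
  rw [ae_all_iff]
  intro j
  have h : (volume : Measure E6) {c | c j = 0} = 0 :=
    Measure.pi_hyperplane (fun _ : Fin 6 => (volume : Measure ℂ)) j 0
  exact measure_eq_zero_iff_ae_notMem.1 h

theorem ae_U : ∀ᵐ z : E6, z ∈ X1.U := by
  filter_upwards [ae_ne6] with z hz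
  rw [mem_U1]
  exact fun i => Or.inl (hz _)

theorem fib6 (g : E6 → ℝ≥0∞) (hg : Measurable g) :
    ∫⁻ z, g z = ∫⁻ c : C3, ∫⁻ x : C3, g (X1.act c (X1.σ x)) *
      ENNReal.ofReal (∏ i, ‖c i‖ ^ 2) := by
  have h1 : ∫⁻ z, g z = ∫⁻ p : C3 × C3, g (spl p) :=
    (spl_mp.lintegral_comp hg).symm
  have h2 : Measurable fun p : C3 × C3 => g (spl p) := hg.comp spl.measurable
  rw [h1, Measure.volume_eq_prod, lintegral_prod _ h2.aemeasurable]
  refine lintegral_congr_ae ?_
  filter_upwards [ae_ne] with c hc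
  have hgm : Measurable fun w : C3 => g (spl (c, w)) :=
    hg.comp (spl.measurable.comp measurable_prodMk_left)
  rw [scale c hc _ hgm]
  refine lintegral_congr fun x => ?_
  rw [spl_apply, act1_eq, sigma1_eq]
  congr 2
  funext k
  fin_cases k <;> simp

/-! ### the parametrisation `(c, x) ↦ c σ(x)` -/

/-- the parametrisation -/
noncomputable def Psi (p : C3 × C3) : E6 := X1.act p.1 (X1.σ p.2)

theorem continuous_Psi : Continuous Psi := by
  have e : Psi = fun p : C3 × C3 => ![p.1 0 * p.2 0, p.1 0, p.1 1 * p.2 1, p.1 1,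
      p.1 2 * p.2 2, p.1 2] := by
    funext p
    unfold Psi
    rw [act1_eq, sigma1_eq]
    funext k
    fin_cases k <;> simp
  rw [e]
  refine continuous_pi fun k => ?_
  fin_cases k <;> simp <;> fun_prop

/-- the Jacobian -/
noncomputable def jac (p : C3 × C3) : ℝ := ∏ i, ‖p.1 i‖ ^ 2

theorem continuous_jac : Continuous jac := by
  unfold jac
  fun_prop

theorem jac_nonneg (p : C3 × C3) : 0 ≤ jac p := Finset.prod_nonneg fun i _ => by positivity

/-- the measure on the parameters -/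
noncomputable def nu : Measure (C3 × C3) :=
  (volume : Measure (C3 × C3)).withDensity fun p => ENNReal.ofReal (jac p)

theorem measurable_dens : Measurable fun p : C3 × C3 => ENNReal.ofReal (jac p) :=
  continuous_jac.measurable.ennreal_ofReal

theorem map_Psi : Measure.map Psi nu = (volume : Measure E6) := by
  ext s hs
  have hm : MeasurableSet (Psi ⁻¹' s) := continuous_Psi.measurable hs
  rw [Measure.map_apply continuous_Psi.measurable hs, nu, withDensity_apply _ hm,
    ← lintegral_indicator_one hs, fib6 _ (measurable_one.indicator hs),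
    ← lintegral_indicator hm, Measure.volume_eq_prod,
    lintegral_prod _ (measurable_dens.indicator hm).aemeasurable]
  refine lintegral_congr fun c => lintegral_congr fun x => ?_
  by_cases h : Psi (c, x) ∈ s
  · have h' : (c, x) ∈ Psi ⁻¹' s := h
    have h'' : X1.act c (X1.σ x) ∈ s := h
    rw [Set.indicator_of_mem h', Set.indicator_of_mem h'']
    simp [jac]
  · have h' : (c, x) ∉ Psi ⁻¹' s := h
    have h'' : X1.act c (X1.σ x) ∉ s := h
    rw [Set.indicator_of_notMem h', Set.indicator_of_notMem h'', zero_mul]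

/-! ### Gaussian integrals -/

theorem gauss0 {b : ℝ} (hb : 0 < b) : ∫ x : ℂ, Real.exp (-(b * ‖x‖ ^ 2)) = Real.pi / b := by
  have h := Complex.integral_exp_neg_mul_rpow (p := 2) (b := b) (by norm_num) hb
  have e : (fun x : ℂ => Real.exp (-b * ‖x‖ ^ (2 : ℝ))) =
      fun x : ℂ => Real.exp (-(b * ‖x‖ ^ 2)) := by
    funext x
    rw [Real.rpow_two, neg_mul]
  rw [e] at h
  rw [h]
  norm_num
  rw [Real.rpow_neg_one]
  rfl

theorem gauss2 {b : ℝ} (hb : 0 < b) :
    ∫ x : ℂ, ‖x‖ ^ 2 * Real.exp (-(b * ‖x‖ ^ 2)) = Real.pi * (b⁻¹) ^ 2 := by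
  have h := Complex.integral_rpow_mul_exp_neg_mul_rpow (p := 2) (q := 2) (b := b) (by norm_num)
    (by norm_num) hb
  have e : (fun x : ℂ => ‖x‖ ^ (2 : ℝ) * Real.exp (-b * ‖x‖ ^ (2 : ℝ))) =
      fun x : ℂ => ‖x‖ ^ 2 * Real.exp (-(b * ‖x‖ ^ 2)) := by
    funext x
    rw [Real.rpow_two, neg_mul]
  rw [e] at h
  rw [h]
  have e1 : (-(2 + 2) / 2 : ℝ) = -2 := by norm_num
  have e2 : ((2 + 2) / 2 : ℝ) = 2 := by norm_num
  rw [e1, e2, Real.Gamma_two, Real.rpow_neg hb.le, Real.rpow_two, inv_pow]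
  ring

theorem int_gauss0 {b : ℝ} (hb : 0 < b) :
    Integrable (fun x : ℂ => Real.exp (-(b * ‖x‖ ^ 2))) := by
  refine Integrable.of_integral_ne_zero ?_
  rw [gauss0 hb]
  have := Real.pi_pos
  positivity

theorem sum_nn (z : E6) : ∑ i, nn z i = ∑ m : Fin 6, ‖z m‖ ^ 2 := by
  rw [Fin.sum_univ_three, Fin.sum_univ_six]
  unfold nn
  rw [lo0, lo1, lo2, hi0, hi1, hi2]
  ring

theorem exp_nn (z : E6) : Real.exp (-∑ i, nn z i) = ∏ m : Fin 6, Real.exp (-(1 * ‖z m‖ ^ 2)) := by
  rw [← Real.exp_sum, sum_nn]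
  simp

theorem int_gauss6 : Integrable (fun z : E6 => Real.exp (-∑ i, nn z i)) := by
  simp only [exp_nn]
  exact Integrable.fintype_prod (f := fun _ : Fin 6 => fun x : ℂ => Real.exp (-(1 * ‖x‖ ^ 2)))
    fun _ => int_gauss0 one_pos

/-- the integral over the fibre -/
theorem inner_int (x : C3) : ∫ c : C3, (∏ i, ‖c i‖ ^ 2) *
    Real.exp (-∑ i, nn (X1.act c (X1.σ x)) i) =
    Real.pi ^ 3 * ∏ i, (1 + ‖x i‖ ^ 2)⁻¹ ^ 2 := by
  have e : (fun c : C3 => (∏ i, ‖c i‖ ^ 2) * Real.exp (-∑ i, nn (X1.act c (X1.σ x)) i)) =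
      fun c : C3 => ∏ i, (fun i : Fin 3 => fun y : ℂ => ‖y‖ ^ 2 *
        Real.exp (-((1 + ‖x i‖ ^ 2) * ‖y‖ ^ 2))) i (c i) := by
    funext c
    have e1 : -∑ i, nn (X1.act c (X1.σ x)) i = ∑ i, -((1 + ‖x i‖ ^ 2) * ‖c i‖ ^ 2) := by
      rw [← Finset.sum_neg_distrib]
      refine Finset.sum_congr rfl fun i _ => ?_
      rw [nn_act, nn_sigma]
      ring
    rw [e1, Real.exp_sum, ← Finset.prod_mul_distrib]
  have e3 := integral_fintype_prod_volume_eq_prod (𝕜 := ℝ) (ι := Fin 3) (E := fun _ => ℂ)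
    (fun (i : Fin 3) (y : ℂ) => ‖y‖ ^ 2 * Real.exp (-((1 + ‖x i‖ ^ 2) * ‖y‖ ^ 2)))
  rw [e]
  refine e3.trans ?_
  have e2 : ∀ i : Fin 3, ∫ y : ℂ, ‖y‖ ^ 2 * Real.exp (-((1 + ‖x i‖ ^ 2) * ‖y‖ ^ 2)) =
      Real.pi * ((1 + ‖x i‖ ^ 2)⁻¹) ^ 2 := fun i => gauss2 (by positivity)
  simp only [e2]
  rw [Finset.prod_mul_distrib, Finset.prod_const]
  simp

/-! ### the theorem -/

theorem bounded_F {F : E6 → ℝ} (hF : ContinuousOn F X1.U)
    (hi : ∀ z ∈ X1.U, ∀ c : C3, (∀ j, c j ≠ 0) → F (X1.act c z) = F z) :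
    ∃ C, ∀ z ∈ X1.U, |F z| ≤ C := by
  obtain ⟨C, hC⟩ := isCompact_M1.exists_bound_of_continuousOn (hF.mono M1_subset)
  refine ⟨C, fun z hz => ?_⟩
  have h1 : F (nz z) = F z := hi z hz _ (nz_coef hz)
  rw [← h1]
  exact hC _ (nz_mem hz)

/-- GAU -/
theorem gau : GauStmt := by
  intro F hF hi
  obtain ⟨C, hC⟩ := bounded_F hF hi
  have hU : (volume : Measure E6).restrict X1.U = volume :=
    Measure.restrict_eq_self_of_ae_mem ae_U
  have hFm : AEStronglyMeasurable F (volume : Measure E6) := by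
    rw [← hU]
    exact hF.aestronglyMeasurable isOpen_U1.measurableSet
  set G : E6 → ℝ := fun z => Real.exp (-∑ i, nn z i) * F z with hG
  have hexp : Continuous fun z : E6 => Real.exp (-∑ i, nn z i) := by
    refine Real.continuous_exp.comp (Continuous.neg ?_)
    exact continuous_finsetSum _ fun i _ => continuous_nn i
  have hGm : AEStronglyMeasurable G (volume : Measure E6) :=
    hexp.aestronglyMeasurable.mul hFm
  have hGi : Integrable G := by
    refine Integrable.mono' (int_gauss6.mul_const C) hGm ?_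
    filter_upwards [ae_U] with z hz
    rw [hG, Real.norm_eq_abs, abs_mul, abs_of_pos (Real.exp_pos _)]
    exact mul_le_mul_of_nonneg_left (hC z hz) (Real.exp_pos _).le
  -- transport to the parameters
  have hGi' : Integrable G (Measure.map Psi nu) := by
    rw [map_Psi]
    exact hGi
  have hGm' : AEStronglyMeasurable G (Measure.map Psi nu) := hGi'.1
  have h1 : Integrable (fun p => G (Psi p)) nu :=
    (integrable_map_measure hGm' continuous_Psi.measurable.aemeasurable).1 hGi'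
  have hlt : ∀ᵐ p : C3 × C3, ENNReal.ofReal (jac p) < ∞ :=
    Eventually.of_forall fun p => ENNReal.ofReal_lt_top
  have h2 : Integrable (fun p : C3 × C3 => jac p * G (Psi p)) volume := by
    have := (integrable_withDensity_iff_integrable_smul' measurable_dens hlt).1 h1
    refine this.congr (Eventually.of_forall fun p => ?_)
    simp only [smul_eq_mul]
    rw [ENNReal.toReal_ofReal (jac_nonneg p)]
  have h3 : ∫ z, G z = ∫ p : C3 × C3, jac p * G (Psi p) := by
    have e1 : ∫ z, G z = ∫ z, G z ∂(Measure.map Psi nu) := by rw [map_Psi]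
    rw [e1, integral_map continuous_Psi.measurable.aemeasurable hGm', nu,
      integral_withDensity_eq_integral_toReal_smul measurable_dens hlt]
    refine integral_congr_ae (Eventually.of_forall fun p => ?_)
    simp only [smul_eq_mul]
    rw [ENNReal.toReal_ofReal (jac_nonneg p)]
  -- the fibres
  have h4 : ∀ x : C3, ∫ c : C3, jac (c, x) * G (Psi (c, x)) =
      Real.pi ^ 3 * ((∏ i, (1 + ‖x i‖ ^ 2)⁻¹ ^ 2) * F (X1.σ x)) := by
    intro x
    have e : ∫ c : C3, jac (c, x) * G (Psi (c, x)) =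
        ∫ c : C3, ((∏ i, ‖c i‖ ^ 2) * Real.exp (-∑ i, nn (X1.act c (X1.σ x)) i)) *
          F (X1.σ x) := by
      refine integral_congr_ae ?_
      filter_upwards [ae_ne] with c hc
      have h5 : F (X1.act c (X1.σ x)) = F (X1.σ x) := hi _ (sigma1_mem_U x) c hc
      simp only [hG, jac, Psi]
      rw [h5]
      ring
    rw [e, integral_mul_const, inner_int]
    ring
  have h2' : Integrable (fun p : C3 × C3 => jac p * G (Psi p))
      ((volume : Measure C3).prod (volume : Measure C3)) := h2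
  have h6 := h2'.integral_prod_right
  simp only [h4] at h6
  have hpi : (Real.pi ^ 3) ≠ 0 := by
    have := Real.pi_pos
    positivity
  refine ⟨hGi, ?_, ?_⟩
  · have h7 := h6.const_mul (Real.pi ^ 3)⁻¹
    refine h7.congr (Eventually.of_forall fun x => ?_)
    simp only
    rw [← mul_assoc, inv_mul_cancel₀ hpi, one_mul]
  · rw [h3, Measure.volume_eq_prod, integral_prod_symm _ h2']
    simp only [h4]
    rw [integral_const_mul]

end Pool.Agent.SIQ.H21
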