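import Pool.Agent.Helper15_SIQ.Stmts

/-!
# OMG: the superposition operator on `C(K, ℝ)` is smooth
-/

set_option autoImplicit false

open MeasureTheory Filter Topology

namespace Pool.Agent.SIQ.H21

theorem taylor_unif {θ θ' : ℝ → ℝ} (h : ∀ x, HasDerivAt θ (θ' x) x) (hc : Continuous θ') (R : ℝ)
    {ε : ℝ} (hε : 0 < ε) :
    ∃ δ : ℝ, 0 < δ ∧ ∀ a t : ℝ, |a| ≤ R → |t| ≤ δ → |θ (a + t) - θ a - θ' a * t| ≤ ε * |t| := by
  have hu : UniformContinuousOn θ' (Set.Icc (-R - 1) (R + 1)) :=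
    isCompact_Icc.uniformContinuousOn_of_continuous hc.continuousOn
  obtain ⟨δ, hδ, hδ'⟩ := Metric.uniformContinuousOn_iff.1 hu ε hε
  refine ⟨min 1 (δ / 2), by positivity, fun a t ha ht => ?_⟩
  have ht1 : |t| ≤ 1 := ht.trans (min_le_left _ _)
  have ht2 : |t| ≤ δ / 2 := ht.trans (min_le_right _ _)
  have ha' := abs_le.1 ha
  have ht' := abs_le.1 ht1
  have hmem : ∀ s ∈ Set.uIcc a (a + t), |s - a| ≤ |t| := by
    intro s hs
    have := Set.abs_sub_left_of_mem_uIcc hs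
    simpa using this
  have key := Convex.norm_image_sub_le_of_norm_hasDerivWithin_le
    (f := fun s => θ s - θ' a * s) (f' := fun s => θ' s - θ' a) (C := ε)
    (s := Set.uIcc a (a + t)) (x := a) (y := a + t)
    (fun s _ => (((h s).sub (((hasDerivAt_id s).const_mul (θ' a)))).hasDerivWithinAt).congr_deriv
      (by ring))
    (fun s hs => by
      have h1 := hmem s hs
      have h2 := abs_le.1 (h1.trans ht1)
      have h3 : dist s a < δ := by
        rw [Real.dist_eq]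
        linarith
      have h4 := hδ' s ⟨by linarith, by linarith⟩ a ⟨by linarith, by linarith⟩ h3
      rw [Real.dist_eq] at h4
      exact h4.le)
    (convex_uIcc a (a + t)) Set.left_mem_uIcc Set.right_mem_uIcc
  rw [Real.norm_eq_abs, Real.norm_eq_abs] at key
  have e1 : (θ (a + t) - θ' a * (a + t)) - (θ a - θ' a * a) = θ (a + t) - θ a - θ' a * t := by
    ring
  have e2 : a + t - a = t := by ring
  rw [e1, e2] at key
  exact key

variable {K : Type} [TopologicalSpace K] [CompactSpace K]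

theorem hasFDerivAt_comp (θ θ' : C(ℝ, ℝ)) (h : ∀ x, HasDerivAt θ (θ' x) x) (f : C(K, ℝ)) :
    HasFDerivAt (fun f : C(K, ℝ) => θ.comp f) (ContinuousLinearMap.mul ℝ C(K, ℝ) (θ'.comp f))
      f := by
  rw [hasFDerivAt_iff_isLittleO_nhds_zero, Asymptotics.isLittleO_iff]
  intro ε hε
  obtain ⟨δ, hδ, hδ'⟩ := taylor_unif h θ'.continuous ‖f‖ hε
  filter_upwards [Metric.closedBall_mem_nhds (0 : C(K, ℝ)) hδ] with g hg
  rw [Metric.mem_closedBall, dist_zero_right] at hg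
  rw [ContinuousMap.norm_le _ (by positivity)]
  intro x
  have h1 : |f x| ≤ ‖f‖ := f.norm_coe_le_norm x
  have h2 : |g x| ≤ ‖g‖ := g.norm_coe_le_norm x
  have h3 := hδ' (f x) (g x) h1 (h2.trans hg)
  have h4 : ε * |g x| ≤ ε * ‖g‖ := mul_le_mul_of_nonneg_left h2 hε.le
  exact h3.trans h4

theorem contDiff_nat (n : ℕ) : ∀ θ : C(ℝ, ℝ), ContDiff ℝ ((⊤ : ℕ∞) : WithTop ℕ∞) θ →
    ContDiff ℝ (n : WithTop ℕ∞) (fun f : C(K, ℝ) => θ.comp f) := by
  induction n with
  | zero =>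
    intro θ _
    exact contDiff_zero.2 (ContinuousMap.continuous_postcomp θ)
  | succ n ih =>
    intro θ hθ
    have hd : ContDiff ℝ ((⊤ : ℕ∞) : WithTop ℕ∞) (deriv θ) :=
      (contDiff_infty_iff_deriv.1 hθ).2
    let θ' : C(ℝ, ℝ) := ⟨deriv θ, hd.continuous⟩
    have h : ∀ x, HasDerivAt θ (θ' x) x := fun x =>
      ((hθ.differentiable (by simp)) x).hasDerivAt
    have hf : ∀ f : C(K, ℝ), HasFDerivAt (fun f : C(K, ℝ) => θ.comp f)
        (ContinuousLinearMap.mul ℝ C(K, ℝ) (θ'.comp f)) f := hasFDerivAt_comp θ θ' h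
    push_cast
    rw [contDiff_succ_iff_fderiv]
    refine ⟨fun f => (hf f).differentiableAt, by simp, ?_⟩
    have e : fderiv ℝ (fun f : C(K, ℝ) => θ.comp f) =
        fun f => ContinuousLinearMap.mul ℝ C(K, ℝ) (θ'.comp f) := funext fun f => (hf f).fderiv
    rw [e]
    exact (ContinuousLinearMap.contDiff (𝕜 := ℝ) (E := C(K, ℝ)) (F := C(K, ℝ) →L[ℝ] C(K, ℝ))
      (n := (n : WithTop ℕ∞)) (ContinuousLinearMap.mul ℝ C(K, ℝ))).comp (ih θ' hd)

/-- OMG -/
theorem omg : OmgStmt := by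
  intro K _ _ θ hθ
  exact contDiff_infty.2 fun n => contDiff_nat n θ hθ

end Pool.Agent.SIQ.H21
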