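import Pool.Agent.Helper15_SIQ.Stmts
import Pool.Agent.Helper15_SIU.Stmts

/-!
# PRF: the pairing as a Gaussian integral
-/

set_option autoImplicit false

open MeasureTheory Filter Topology

namespace Pool.Agent.SIQ.H21

open Pool.Agent.SIU

/-- wedge product after a diagonal linear map, at the standard basis -/
theorem wedge_rot (hC : ComStmt) (hW : WdgStmt) {k l : ℕ} (h : k + l = 6) (c : C3)
    (a : Alt 3 k) (b : Alt 3 l) :
    wedge (a.compContinuousLinearMap ((rot3 c).restrictScalars ℝ))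
      (b.compContinuousLinearMap ((rot3 c).restrictScalars ℝ)) (stdb 3 (k + l)) =
      (∏ j, ‖c j‖ ^ 2) * wedge a b (stdb 3 (k + l)) := by
  rw [← (hW 3 k l).2.2.2.1 3 ((rot3 c).restrictScalars ℝ) a b]
  exact (hC k l h).2.2 c (wedge a b)

theorem norm_conj_div {c : ℂ} (hc : c ≠ 0) : ‖(starRingEnd ℂ) c / c‖ = 1 := by
  rw [norm_div, RCLike.norm_conj, div_self (norm_ne_zero_iff.2 hc)]

/-- the pull-back to the chart in terms of the components -/
theorem pull_eq (hF : FrmStmt) (hP : CptStmt) {k : ℕ} {a : E6 → Alt 6 k}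
    (ha : X1.BasicOn X1.U a) (x : C3) :
    Toric.pull X1.σ a x = (cmp a (X1.σ x)).compContinuousLinearMap
      ((rot3 fun i => -1 / ((1 + ‖x i‖ ^ 2 : ℝ) : ℂ)).restrictScalars ℝ) := by
  have h1 := (hP.1 k a ha).2 (X1.σ x) (sigma1_mem_U x)
  rw [pull_sigma1]
  ext v
  show a (X1.σ x) (fun i => inc1 (v i)) = cmp a (X1.σ x) (fun i => rot3 _ (v i))
  have h2 : a (X1.σ x) (fun i => inc1 (v i)) =
      cmp a (X1.σ x) (fun i => fl (X1.σ x) (inc1 (v i))) := by
    conv_lhs => rw [h1]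
    rfl
  rw [h2]
  congr 1
  funext i
  rw [hF.2.2.2.2.2.2.2.2.2 x (v i)]
  funext j
  rw [rot3_apply]
  ring

/-- evaluation of forms at fixed vectors is continuous -/
theorem cont_eval {m : ℕ} {S : Set E6} {f : E6 → Alt 3 m} (hf : ContinuousOn f S)
    (v : Fin m → C3) : ContinuousOn (fun z => f z v) S := by
  have h2 : Continuous fun w : Alt 3 m => w v := ContinuousEvalConst.continuous_eval_const v
  exact h2.comp_continuousOn hf

theorem cont_gen {A B D : Type} [TopologicalSpace A] [TopologicalSpace B] [TopologicalSpace D]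
    {f : A → B → D} (hf : Continuous fun p : A × B => f p.1 p.2) {S : Set E6} {u : E6 → A}
    {w : E6 → B} (hu : ContinuousOn u S) (hw : ContinuousOn w S) :
    ContinuousOn (fun z => f (u z) (w z)) S :=
  hf.comp_continuousOn (hu.prodMk hw)

theorem wedge_cont (hW : WdgStmt) {k l : ℕ} :
    Continuous fun p : Alt 3 k × Alt 3 l => wedge p.1 p.2 := by
  obtain ⟨-, -, -, -, h, -⟩ := hW 3 k l
  exact (h 0).continuous

theorem cont_wedge (hW : WdgStmt) {k l : ℕ} {S : Set E6} {u : E6 → Alt 3 k} {w : E6 → Alt 3 l}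
    (hu : ContinuousOn u S) (hw : ContinuousOn w S) :
    ContinuousOn (fun z => wedge (u z) (w z)) S := by
  exact cont_gen (f := wedge) (wedge_cont hW) hu hw

theorem prw_eq {k l : ℕ} (a : E6 → Alt 6 k) (b : E6 → Alt 6 l) :
    prw a b = fun z => wedge (cmp a z) (cmp b z) (stdb 3 (k + l)) := rfl

theorem prw_cont (hP : CptStmt) (hW : WdgStmt) {k l : ℕ} {a : E6 → Alt 6 k} {b : E6 → Alt 6 l}
    (hac : ContinuousOn a X1.U) (hbc : ContinuousOn b X1.U) : ContinuousOn (prw a b) X1.U := by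
  have hca : ContinuousOn (cmp a) X1.U :=
    contDiffOn_zero.1 (hP.2.2.1 k 0 a (contDiffOn_zero.2 hac))
  have hcb : ContinuousOn (cmp b) X1.U :=
    contDiffOn_zero.1 (hP.2.2.1 l 0 b (contDiffOn_zero.2 hbc))
  have h1 := cont_wedge hW hca hcb
  have h2 := cont_eval h1 (stdb 3 (k + l))
  rw [prw_eq]
  exact h2

theorem prw_inv (hP : CptStmt) (hC : ComStmt) (hW : WdgStmt) {k l : ℕ} (h : k + l = 6)
    {a : E6 → Alt 6 k} {b : E6 → Alt 6 l} (hab : X1.BasicOn X1.U a) (hbb : X1.BasicOn X1.U b)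
    {z : E6} (hz : z ∈ X1.U) {c : C3} (hc : ∀ j, c j ≠ 0) :
    prw a b (X1.act c z) = prw a b z := by
  have ea := (hP.1 k a hab).1 z hz c hc
  have eb := (hP.1 l b hbb).1 z hz c hc
  rw [prw_eq]
  show wedge (cmp a (X1.act c z)) (cmp b (X1.act c z)) (stdb 3 (k + l)) =
    wedge (cmp a z) (cmp b z) (stdb 3 (k + l))
  rw [ea, eb, wedge_rot hC hW h]
  have : ∏ j, ‖(starRingEnd ℂ) (c j) / c j‖ ^ 2 = 1 := by
    refine Finset.prod_eq_one fun j _ => ?_
    rw [norm_conj_div (hc j), one_pow]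
  rw [this, one_mul]

theorem prw_pt (hF : FrmStmt) (hP : CptStmt) (hC : ComStmt) (hW : WdgStmt) {k l : ℕ}
    (h : k + l = 6) {a : E6 → Alt 6 k} {b : E6 → Alt 6 l} (hab : X1.BasicOn X1.U a)
    (hbb : X1.BasicOn X1.U b) (x : C3) :
    wedge (Toric.pull X1.σ a x) (Toric.pull X1.σ b x) (stdb 3 (k + l)) =
      (∏ i, (1 + ‖x i‖ ^ 2)⁻¹ ^ 2) * prw a b (X1.σ x) := by
  rw [pull_eq hF hP hab, pull_eq hF hP hbb, wedge_rot hC hW h, prw_eq]
  congr 1
  refine Finset.prod_congr rfl fun i _ => ?_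
  rw [norm_div, norm_neg, norm_one, Complex.norm_real, one_div,
    Real.norm_of_nonneg (by positivity)]

theorem pair_eq {k l : ℕ} (a : E6 → Alt 6 k) (b : E6 → Alt 6 l) :
    X1.pair a b = ∫ x : C3, wedge (Toric.pull X1.σ a x) (Toric.pull X1.σ b x)
      (stdb 3 (k + l)) := rfl

/-- PRF -/
theorem prf (hF : FrmStmt) (hP : CptStmt) (hC : ComStmt) (hG : GauStmt) (hW : WdgStmt) :
    PrfStmt := by
  intro k l h a b hac hab hbc hbb
  obtain ⟨g1, g2, g3⟩ := hG (prw a b) (prw_cont hP hW hac hbc)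
    (fun z hz c hc => prw_inv hP hC hW h hab hbb hz hc)
  have hpt : (fun x : C3 => wedge (Toric.pull X1.σ a x) (Toric.pull X1.σ b x)
      (stdb 3 (k + l))) = fun x => (∏ i, (1 + ‖x i‖ ^ 2)⁻¹ ^ 2) * prw a b (X1.σ x) :=
    funext fun x => prw_pt hF hP hC hW h hab hbb x
  refine ⟨?_, g1, ?_⟩
  · rw [hpt]
    exact g2
  · rw [g3, ← mul_assoc, inv_mul_cancel₀ (pow_ne_zero 3 Real.pi_pos.ne'), one_mul, pair_eq, hpt]

end Pool.Agent.SIQ.H21
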